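import Mathlib

/-!
# Tree-free convolution powers: definitions

`G` is the Cauchy transform, `KK` the function `K_mu`, trees are sets of strings (lists whose head
is the leftmost letter), `Kd d T K` is the function `K` of the tree-free convolution along the
tree `T` cut at depth `d`.
-/

set_option autoImplicit false

open MeasureTheory Set Filter Topology

namespace Pool.Agent.H288.TF

/-- The Cauchy transform `G_mu(z)`, the integral of `1 / (z - t)`. -/
noncomputable def G (μ : Measure ℝ) (z : ℂ) : ℂ := ∫ t : ℝ, (z - (t : ℂ))⁻¹ ∂μ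

/-- `K_mu(z) = z - F_mu(z)`, `F_mu = 1 / G_mu`. -/
noncomputable def KK (μ : Measure ℝ) (z : ℂ) : ℂ := z - (G μ z)⁻¹

/-- `ρ` is the boolean power of `μ` with exponent `c`: `K_ρ = c K_μ` on the upper half-plane. -/
def IsBoolPower (c : ℝ) (μ ρ : ProbabilityMeasure ℝ) : Prop :=
  ∀ z : ℂ, 0 < z.im → KK (ρ : Measure ℝ) z = (c : ℂ) * KK (μ : Measure ℝ) z

/-- Rooted subtrees of the tree of alternating strings over `N` letters. A string is a list whose
head is its leftmost letter; the parent of `j :: s` is `s`. -/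
structure IsTree {N : ℕ} (T : Set (List (Fin N))) : Prop where
  root : [] ∈ T
  alt : ∀ s ∈ T, List.IsChain (fun a b => a ≠ b) s
  closed : ∀ (j : Fin N) (s : List (Fin N)), j :: s ∈ T → s ∈ T

/-- The branch of `T` at `j`: the strings `s` with `s j` in `T`. -/
def branch {N : ℕ} (T : Set (List (Fin N))) (j : Fin N) : Set (List (Fin N)) :=
  {s | s ++ [j] ∈ T}

/-- The number of neighbours of the root. -/
noncomputable def nroot {N : ℕ} (T : Set (List (Fin N))) : ℕ := {j : Fin N | [j] ∈ T}.ncard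

open Classical in
/-- The function `K` of the convolution along `T` cut at depth `d`, with all arguments equal to
the measure whose function is `K`. -/
noncomputable def Kd {N : ℕ} : ℕ → Set (List (Fin N)) → (ℂ → ℂ) → ℂ → ℂ
  | 0, _, _, _ => 0
  | d + 1, T, K, z => ∑ j : Fin N, if [j] ∈ T then K (z - Kd d (branch T j) K z) else 0

/-- `ν` is the tree-free convolution of `μ` along `T`: its function `K` is the limit of those of
the convolutions along the finite trees obtained by cutting `T` at depth `d`. -/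
def IsTreeConv {N : ℕ} (T : Set (List (Fin N))) (μ ν : ProbabilityMeasure ℝ) : Prop :=
  ∀ z : ℂ, 0 < z.im → Tendsto (fun d => Kd d T (KK (μ : Measure ℝ)) z) atTop
    (𝓝 (KK (ν : Measure ℝ) z))

/-- The tree `e, 0, 1, 2, 3, 01, 02, 03` over four letters. -/
def TT : Set (List (Fin 4)) := {[], [0], [1], [2], [3], [0, 1], [0, 2], [0, 3]}

/-! ## Coefficients -/

/-- `θ = log 3 + i π`. -/
noncomputable def th : ℂ := (Real.log 3 : ℂ) + Real.pi * Complex.I

/-- `q_i = exp (-4 θ / 4 ^ i)`; `q_1 = -1/3`. -/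
noncomputable def qq (i : ℕ) : ℂ := Complex.exp (-(th * (4 / 4 ^ i)))

/-- The multiplier of the mode `j` from level `t` to level `t - 1`. -/
noncomputable def AA (t j : ℕ) : ℂ := 1 + 3 * qq t ^ j

/-- The coefficient of `w ^ n` in `(∑_{a ≥ 1} h a w ^ a) ^ p`. -/
def cp {R : Type} [CommSemiring R] (h : ℕ → R) : ℕ → ℕ → R
  | 0, n => if n = 0 then 1 else 0
  | p + 1, n => ∑ a ∈ Finset.Icc 1 n, h a * cp h p (n - a)

/-- The nonlinear part of the coefficient of `w ^ j` in `H (q w exp (-i H w))`,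
`H w = ∑_{a ≥ 1} h a w ^ a`. -/
noncomputable def Nl (q : ℂ) (h : ℕ → ℂ) (j : ℕ) : ℂ :=
  ∑ a ∈ Finset.Ico 1 j, q ^ a * h a *
    ∑ p ∈ Finset.Icc 1 j, (-Complex.I * a) ^ p / (p.factorial : ℂ) * cp h p (j - a)

/-- The coefficients at level `L - d`, those at level `L` being `g j / 4 ^ L`. -/
noncomputable def lev (L : ℕ) (g : ℕ → ℂ) : ℕ → ℕ → ℂ
  | 0 => fun j => g j / 4 ^ L
  | d + 1 => fun j => AA (L - d) j * lev L g d j + 3 * Nl (qq (L - d)) (lev L g d) j

/-- The coefficients at level `i`, `i ≤ L`. -/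
noncomputable def hh (L : ℕ) (g : ℕ → ℂ) (i : ℕ) : ℕ → ℂ := lev L g (L - i)

/-- The weights `min (4 ^ (-i)) (1 / j)`. -/
noncomputable def MM (i j : ℕ) : ℝ := 1 / max ((4 : ℝ) ^ i) (j : ℝ)

/-- The majorant of the nonlinear part. -/
noncomputable def Phi (b : ℕ → ℝ) (j : ℕ) : ℝ := 2 * ∑ k ∈ Finset.Icc 2 j, cp b k j

/-- The linear evolution of mode `j` from level `L` to level `s`. -/
noncomputable def VV (L s j : ℕ) : ℂ := (∏ t ∈ Finset.Ioc s L, AA t j) / 4 ^ L

/-- The influence of the top coefficient of the mode `e` on the mode `e + 1` at level `0`. -/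
noncomputable def rr (L e : ℕ) : ℂ :=
  ∑ s ∈ Finset.Icc 1 L, (-3 * Complex.I) * (qq s + e * qq s ^ e) * VV L s 1 * VV L s e *
    ∏ t ∈ Finset.Ico 1 s, AA t (e + 1)

/-- Up to mode `J` the coefficients are bounded by `MM i j * b j` and the odd ones vanish at
level `0`. -/
def Good (L : ℕ) (b : ℕ → ℝ) (g : ℕ → ℂ) (J : ℕ) : Prop :=
  g 1 = 1 ∧ (∀ j, 1 ≤ j → j ≤ J → ∀ i, i ≤ L → ‖hh L g i j‖ ≤ MM i j * b j) ∧
    ∀ j, j ≤ J → Odd j → hh L g 0 j = 0

/-! ## Functions and measures -/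

/-- The function with coefficients `h j`, `j ≥ 1`. -/
noncomputable def Hf (h : ℕ → ℂ) (w : ℂ) : ℂ := ∑' j : ℕ, h (j + 1) * w ^ (j + 1)

/-- The density of the measure with `K_mu = K`. -/
noncomputable def dens (K : ℂ → ℂ) (x : ℝ) : ℝ :=
  ((x : ℂ) - K x).im / (Real.pi * Complex.normSq ((x : ℂ) - K x))

/-- The measure with `K_mu = K`. -/
noncomputable def mu (K : ℂ → ℂ) : Measure ℝ :=
  volume.withDensity (fun x => ENNReal.ofReal (dens K x))

/-- Functions `K` holomorphic near the closed upper half-plane, with `‖K‖ ≤ R`,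
`Im K ≤ -c` there. -/
structure Nice (K : ℂ → ℂ) (R c : ℝ) : Prop where
  pos : 0 < c
  diff : DifferentiableOn ℂ K {z | -1 < z.im}
  bdd : ∀ z : ℂ, 0 ≤ z.im → ‖K z‖ ≤ R
  im_le : ∀ z : ℂ, 0 ≤ z.im → (K z).im ≤ -c

end Pool.Agent.H288.TF
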