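import Pool.Agent.H288.TF.Main
import Pool.Agent.H288.TF.T.WT
import Pool.Agent.H288.TF.T.CP
import Pool.Agent.H288.TF.T.SUM2
import Pool.Agent.H288.TF.T.NL
import Pool.Agent.H288.TF.T.WP
import Pool.Agent.H288.TF.T.LOW
import Pool.Agent.H288.TF.T.RES
import Pool.Agent.H288.TF.T.AFF
import Pool.Agent.H288.TF.T.MAJ
import Pool.Agent.H288.TF.T.REP
import Pool.Agent.H288.TF.T.LOC
import Pool.Agent.H288.TF.T.BASE
import Pool.Agent.H288.TF.T.STEP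
import Pool.Agent.H288.TF.T.CORE
import Pool.Agent.H288.TF.T.FUNC
import Pool.Agent.H288.TF.T.HB
import Pool.Agent.H288.TF.T.NICE
import Pool.Agent.H288.TF.T.CAU
import Pool.Agent.H288.TF.T.MEAS
import Pool.Agent.H288.TF.T.WEAK
import Pool.Agent.H288.TF.T.CONT
import Pool.Agent.H288.TF.T.TREE
import Pool.Agent.H288.TF.T.SUB

/-!
# The counterexample, with all lemmas
-/

set_option autoImplicit false

open MeasureTheory Set Filter Topology

namespace Pool.Agent.H288.TF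

theorem core : S_CORE :=
  t_CORE t_MAJ (t_STEP t_WT (t_NL t_WT (t_CP t_WT) t_SUM2) t_WP t_LOW t_RES t_AFF t_REP t_LOC)
    t_BASE t_LOC t_WT

theorem counterexample :
    IsTree TT ∧ 1 < nroot TT ∧
    ∃ (μ : ℕ → ProbabilityMeasure ℝ) (k : ℕ → ℕ) (ν : ℕ → ℕ → ProbabilityMeasure ℝ)
      (ρ : ℕ → ProbabilityMeasure ℝ) (ν₀ : ProbabilityMeasure ℝ),
      Tendsto k atTop atTop ∧ (∀ l, ν l 0 = μ l) ∧
      (∀ l i, i < k l → IsTreeConv TT (ν l i) (ν l (i + 1))) ∧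
      (∀ l, IsBoolPower ((nroot TT : ℝ) ^ k l) (μ l) (ρ l)) ∧
      Tendsto (fun l => ν l (k l)) atTop (𝓝 ν₀) ∧
      ¬ ∃ ρ₀ : ProbabilityMeasure ℝ, Tendsto ρ atTop (𝓝 ρ₀) :=
  main core t_LOC t_FUNC t_HB (t_NICE t_HB) (t_MEAS t_CAU) t_WEAK t_CONT t_TREE t_SUB

end Pool.Agent.H288.TF
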