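import Pool.Agent.H288.TF.Stm

/-!
# Assembly of the counterexample
-/

set_option autoImplicit false

open MeasureTheory Set Filter Topology

namespace Pool.Agent.H288.TF

/-- The constant term at level `i`. -/
noncomputable def kap (i : ℕ) : ℂ := (Real.pi - Real.log 3 * Complex.I) * (4 / 4 ^ i)

/-- The function `K` with constant term `κ` and coefficients `h`. -/
noncomputable def Kf (h : ℕ → ℂ) (κ ε : ℂ) (z : ℂ) : ℂ :=
  κ + Hf h (ε * Complex.exp (Complex.I * z))

theorem exp_kap (i : ℕ) : Complex.exp (-Complex.I * kap i) = qq i := by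
  unfold kap qq th
  congr 1
  have : Complex.I * Complex.I = -1 := Complex.I_mul_I
  linear_combination (-(Real.log 3 : ℂ) * (4 / 4 ^ i)) * (-1 : ℂ) * this

theorem kap_succ (i : ℕ) : kap i = 4 * kap (i + 1) := by
  unfold kap
  have h4 : (4 : ℂ) ^ i ≠ 0 := pow_ne_zero _ (by norm_num)
  rw [pow_succ]
  field_simp

theorem kap_zero (i : ℕ) : (4 : ℂ) ^ i * kap i = kap 0 := by
  unfold kap
  have h4 : (4 : ℂ) ^ i ≠ 0 := pow_ne_zero _ (by norm_num)
  field_simp

theorem reim (a b : ℝ) : ((a : ℂ) + (b : ℂ) * Complex.I).re = a ∧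
    ((a : ℂ) + (b : ℂ) * Complex.I).im = b := by
  constructor <;> simp

theorem kap_im (i : ℕ) : (kap i).im = -(4 * Real.log 3 / 4 ^ i) := by
  have : kap i = ((Real.pi * (4 / 4 ^ i) : ℝ) : ℂ) + ((-(Real.log 3 * (4 / 4 ^ i)) : ℝ) : ℂ) * Complex.I := by
    unfold kap; push_cast; ring
  rw [this, (reim _ _).2]
  ring

theorem log3 : 1 ≤ Real.log 3 := by
  rw [Real.le_log_iff_exp_le (by norm_num)]
  have := Real.exp_one_lt_d9
  linarith

/-- Functional equation. -/
theorem feq (hF : S_FUNC) (B : ℝ) (hB : 1 ≤ B) (L : ℕ) (g : ℕ → ℂ) (hL : S_LOC)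
    (hb : ∀ i, i ≤ L → ∀ j, 1 ≤ j → ‖hh L g i j‖ ≤ B ^ j / 4 ^ i) (i : ℕ) (hi : i < L) (ε z : ℂ)
    (hw : B * ‖ε * Complex.exp (Complex.I * z)‖ ≤ 1 / 8) :
    Kf (hh L g i) (kap i) ε z = Kf (hh L g (i + 1)) (kap (i + 1)) ε z +
      3 * Kf (hh L g (i + 1)) (kap (i + 1)) ε (z - Kf (hh L g (i + 1)) (kap (i + 1)) ε z) := by
  have hq : ‖qq (i + 1)‖ ≤ 1 := by
    unfold qq
    rw [Complex.norm_exp]
    have : (-(th * (4 / 4 ^ (i + 1)))).re = -(Real.log 3 * (4 / 4 ^ (i + 1))) := by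
      have h2 : (-(th * (4 / 4 ^ (i + 1)))) = ((-(Real.log 3 * (4 / 4 ^ (i + 1))) : ℝ) : ℂ) +
        ((-(Real.pi * (4 / 4 ^ (i + 1))) : ℝ) : ℂ) * Complex.I := by
        unfold th; push_cast; ring
      rw [h2, (reim _ _).1]
    rw [this]
    apply Real.exp_le_one_iff.2
    have h1 := log3
    have : 0 ≤ Real.log 3 * (4 / 4 ^ (i + 1)) := by positivity
    linarith
  have key := hF B (qq (i + 1)) (hh L g (i + 1)) (hh L g i) hB hq
    (fun j hj => (hb (i + 1) hi j hj).trans (by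
      have : (1 : ℝ) ≤ 4 ^ (i + 1) := one_le_pow₀ (by norm_num)
      exact div_le_self (by positivity) this))
    (fun j _ => by
      have := hL.2.1 L g i j hi
      rw [this]; rfl) (ε * Complex.exp (Complex.I * z)) hw
  unfold Kf
  rw [key, kap_succ i]
  have h3 : ε * Complex.exp (Complex.I * (z - (kap (i + 1) + Hf (hh L g (i + 1)) (ε * Complex.exp (Complex.I * z)))))
      = qq (i + 1) * (ε * Complex.exp (Complex.I * z)) *
        Complex.exp (-Complex.I * Hf (hh L g (i + 1)) (ε * Complex.exp (Complex.I * z))) := by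
    rw [← exp_kap]
    have : Complex.I * (z - (kap (i + 1) + Hf (hh L g (i + 1)) (ε * Complex.exp (Complex.I * z)))) =
        -Complex.I * kap (i + 1) + Complex.I * z +
        -Complex.I * Hf (hh L g (i + 1)) (ε * Complex.exp (Complex.I * z)) := by ring
    rw [this, Complex.exp_add, Complex.exp_add]
    ring
  rw [h3]
  ring

theorem Hf_even (h : ℕ → ℂ) (ho : ∀ j, Odd j → h j = 0) (w : ℂ) : Hf h (-w) = Hf h w := by
  unfold Hf
  congr 1
  ext j
  rcases Nat.even_or_odd (j + 1) with he | ho'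
  · rw [he.neg_pow]
  · rw [ho _ ho']; simp

theorem Hf_smul (h : ℕ → ℂ) (a w : ℂ) : Hf (fun j => a * h j) w = a * Hf h w := by
  unfold Hf
  rw [← tsum_mul_left]
  congr 1
  ext j
  ring

/-- The counterexample. -/
theorem main (hC : S_CORE) (hL : S_LOC) (hF : S_FUNC) (hHB : S_HB) (hN : S_NICE) (hM : S_MEAS)
    (hW : S_WEAK) (hK : S_CONT) (hT : S_TREE) (hS : S_SUB) :
    IsTree TT ∧ 1 < nroot TT ∧
    ∃ (μ : ℕ → ProbabilityMeasure ℝ) (k : ℕ → ℕ) (ν : ℕ → ℕ → ProbabilityMeasure ℝ)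
      (ρ : ℕ → ProbabilityMeasure ℝ) (ν₀ : ProbabilityMeasure ℝ),
      Tendsto k atTop atTop ∧ (∀ l, ν l 0 = μ l) ∧
      (∀ l i, i < k l → IsTreeConv TT (ν l i) (ν l (i + 1))) ∧
      (∀ l, IsBoolPower ((nroot TT : ℝ) ^ k l) (μ l) (ρ l)) ∧
      Tendsto (fun l => ν l (k l)) atTop (𝓝 ν₀) ∧
      ¬ ∃ ρ₀ : ProbabilityMeasure ℝ, Tendsto ρ atTop (𝓝 ρ₀) := by
  obtain ⟨B, hB, hcore⟩ := hC
  choose g hg1 hgb hgo using fun n : ℕ => hcore (n + 1) (Nat.succ_le_succ (Nat.zero_le n))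
  have hB0 : (0 : ℝ) < B := by linarith
  obtain ⟨φ, a', hφ, ha'b, -, ha't⟩ := hS B (fun n j => hh (n + 1) (g n) 0 j) hB
    (fun n j hj => by simpa using hgb n 0 (Nat.zero_le _) j hj)
  -- parameters
  obtain ⟨hTT, hn4, hKd⟩ := hT
  set e0 : ℝ := 1 / (24 * B) with he0
  have he0p : 0 < e0 := by positivity
  let σ : ℕ → ℂ := fun l => if l % 2 = 0 then 1 else -1
  have hσ : ∀ l, ‖σ l‖ = 1 := by
    intro l; simp only [σ]; split_ifs <;> simp
  let n : ℕ → ℕ := fun l => φ (l / 2)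
  let L : ℕ → ℕ := fun l => n l + 1
  let ε : ℕ → ℂ := fun l => σ l * (e0 : ℂ)
  have hε : ∀ l, ‖ε l‖ = e0 := by
    intro l; simp only [ε]; rw [norm_mul, hσ, one_mul]
    rw [Complex.norm_real]; exact abs_of_pos he0p
  have hε24 : ∀ l, 24 * B * ‖ε l‖ ≤ 1 := by
    intro l; rw [hε, he0]; field_simp; exact le_refl _
  have hw8 : ∀ (e : ℂ), ‖e‖ = e0 → ∀ z : ℂ, 0 ≤ z.im → B * ‖e * Complex.exp (Complex.I * z)‖ ≤ 1 / 8 := by
    intro e hee z hz
    rw [norm_mul, hee, Complex.norm_exp]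
    have h1 : (Complex.I * z).re = -z.im := by simp
    rw [h1]
    have h2 : Real.exp (-z.im) ≤ 1 := Real.exp_le_one_iff.2 (by linarith)
    have h3 : B * (e0 * Real.exp (-z.im)) ≤ B * (e0 * 1) := by gcongr
    have h4 : B * (e0 * 1) = 1 / 24 := by rw [he0]; field_simp
    linarith
  let Kv : ℕ → ℕ → ℂ → ℂ := fun l p => Kf (hh (L l) (g (n l)) p) (kap p) (ε l)
  have hlog := log3
  have hnice : ∀ l p, p ≤ L l → Nice (Kv l p) (‖kap p‖ + 1 / 4 ^ p) (1 / 4 ^ p) := by
    intro l p hp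
    have hp4 : (0 : ℝ) < 1 / 4 ^ p := by positivity
    refine hN B (1 / 4 ^ p) (hh (L l) (g (n l)) p) (kap p) (ε l) hB hp4 ?_ ?_ (hε24 l)
    · intro j hj
      have := hgb (n l) p hp j hj
      calc _ ≤ _ := this
        _ = _ := by ring
    · rw [kap_im]
      have : 2 * (1 / (4 : ℝ) ^ p) ≤ 4 * Real.log 3 / 4 ^ p := by
        rw [mul_one_div]
        gcongr
        linarith
      linarith
  have hprob : ∀ l p, p ≤ L l → IsProbabilityMeasure (mu (Kv l p)) ∧
      ∀ z : ℂ, 0 < z.im → KK (mu (Kv l p)) z = Kv l p z :=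
    fun l p hp => hM _ _ _ (hnice l p hp)
  let ν : ℕ → ℕ → ProbabilityMeasure ℝ := fun l i =>
    ⟨mu (Kv l (L l - i)), (hprob l (L l - i) (Nat.sub_le _ _)).1⟩
  -- boolean powers
  let hb : ℕ → ℕ → ℂ := fun l j => (4 : ℂ) ^ (L l) * hh (L l) (g (n l)) (L l) j
  have hbb : ∀ l j, 1 ≤ j → ‖hb l j‖ ≤ 1 * B ^ j := by
    intro l j hj
    simp only [hb]
    rw [norm_mul, norm_pow]
    have h1 := hgb (n l) (L l) (le_refl _) j hj
    have h4 : (0 : ℝ) < 4 ^ (L l) := by positivity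
    have h2 : ‖(4 : ℂ)‖ = 4 := by norm_num
    rw [h2]
    calc (4 : ℝ) ^ L l * ‖hh (L l) (g (n l)) (L l) j‖ ≤ 4 ^ L l * (B ^ j / 4 ^ L l) := by
          gcongr
      _ = 1 * B ^ j := by field_simp
  let Kb : ℕ → ℂ → ℂ := fun l => Kf (hb l) (kap 0) (ε l)
  have hk0 : (kap 0).im ≤ -(2 * 1) := by
    rw [kap_im]; simp; linarith
  have hniceb : ∀ l, Nice (Kb l) (‖kap 0‖ + 1) 1 := by
    intro l
    exact hN B 1 (hb l) (kap 0) (ε l) hB one_pos (hbb l) hk0 (hε24 l)
  let ρ : ℕ → ProbabilityMeasure ℝ := fun l => ⟨mu (Kb l), (hM _ _ _ (hniceb l)).1⟩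
  have hρK : ∀ l (z : ℂ), 0 < z.im → KK (ρ l : Measure ℝ) z = Kb l z :=
    fun l z hz => (hM _ _ _ (hniceb l)).2 z hz
  -- level zero
  have hz0 : ∀ l, Kv l 0 = Kf (hh (n l + 1) (g (n l)) 0) (kap 0) (e0 : ℂ) := by
    intro l
    funext z
    simp only [Kv, Kf, ε, σ, L]
    split_ifs with h
    · rw [one_mul]
    · rw [neg_one_mul, neg_mul, Hf_even _ (hgo (n l))]
  have hlim : Nice (Kf a' (kap 0) (e0 : ℂ)) (‖kap 0‖ + 1) 1 := by
    refine hN B 1 a' (kap 0) (e0 : ℂ) hB one_pos (fun j hj => by simpa using ha'b j hj) hk0 ?_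
    have : ‖(e0 : ℂ)‖ = e0 := by rw [Complex.norm_real]; exact abs_of_pos he0p
    rw [this, he0]; field_simp; exact le_refl _
  have hconv : ∃ ν₀ : ProbabilityMeasure ℝ, Tendsto (fun l => ν l (L l)) atTop (𝓝 ν₀) := by
    refine ⟨⟨mu (Kf a' (kap 0) (e0 : ℂ)), (hM _ _ _ hlim).1⟩, ?_⟩
    refine hW (fun l => Kv l 0) (Kf a' (kap 0) (e0 : ℂ)) (‖kap 0‖ + 1) 1 ?_ hlim ?_ _ _ ?_ rfl
    · intro l
      have := hnice l 0 (Nat.zero_le _)
      simpa using this
    · intro x
      have h1 : Tendsto (fun m => Hf (hh (φ m + 1) (g (φ m)) 0) ((e0 : ℂ) * Complex.exp (Complex.I * x)))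
          atTop (𝓝 (Hf a' ((e0 : ℂ) * Complex.exp (Complex.I * x)))) :=
        ha't _ (hw8 _ (by rw [Complex.norm_real]; exact abs_of_pos he0p) (x : ℂ) (by simp))
      have h2 : Tendsto (fun l : ℕ => l / 2) atTop atTop :=
        Nat.tendsto_div_const_atTop (by norm_num)
      have h3 := (h1.comp h2).const_add (kap 0)
      refine h3.congr ?_
      intro l
      simp only [Function.comp, hz0 l, Kf, n]
    · intro l
      change mu (Kv l (L l - L l)) = mu (Kv l 0)
      rw [Nat.sub_self]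
  have hnot : ¬ ∃ ρ₀ : ProbabilityMeasure ℝ, Tendsto ρ atTop (𝓝 ρ₀) := by
    rintro ⟨ρ₀, hρ⟩
    -- a point high in the half-plane
    set y : ℝ := Real.log (2 * B) with hy
    have hy0 : 0 < y := Real.log_pos (by linarith)
    set z : ℂ := (y : ℂ) * Complex.I with hz
    have hzim : 0 < z.im := by simp [hz, hy0]
    set w : ℂ := (e0 : ℂ) * Complex.exp (Complex.I * z) with hw
    have hexp : Complex.exp (Complex.I * z) = ((1 / (2 * B) : ℝ) : ℂ) := by
      have : Complex.I * z = ((-y : ℝ) : ℂ) := by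
        rw [hz]; push_cast
        have : Complex.I * Complex.I = -1 := Complex.I_mul_I
        linear_combination (y : ℂ) * this
      rw [this, ← Complex.ofReal_exp, Real.exp_neg, hy, Real.exp_log (by positivity), one_div]
    have hwr : w = ((e0 / (2 * B) : ℝ) : ℂ) := by
      rw [hw, hexp]; push_cast; ring
    have hwn : ‖w‖ = e0 / (2 * B) := by
      rw [hwr, Complex.norm_real]; exact abs_of_pos (by positivity)
    have h8 : B * ‖w‖ ≤ 1 / 8 := hw8 (e0 : ℂ) (by rw [Complex.norm_real]; exact abs_of_pos he0p) z hzim.le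
    have hlimK := hK ρ ρ₀ hρ z hzim
    have he : Tendsto (fun m : ℕ => Kb (2 * m) z) atTop (𝓝 (KK (ρ₀ : Measure ℝ) z)) := by
      have h1 : Tendsto (fun m : ℕ => 2 * m) atTop atTop :=
        tendsto_atTop_mono (fun m => (by omega : m ≤ 2 * m)) tendsto_id
      refine (hlimK.comp h1).congr ?_
      intro m; simp only [Function.comp]; exact hρK _ _ hzim
    have ho : Tendsto (fun m : ℕ => Kb (2 * m + 1) z) atTop (𝓝 (KK (ρ₀ : Measure ℝ) z)) := by
      have h1 : Tendsto (fun m : ℕ => 2 * m + 1) atTop atTop :=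
        tendsto_atTop_mono (fun m => (by omega : m ≤ 2 * m + 1)) tendsto_id
      refine (hlimK.comp h1).congr ?_
      intro m; simp only [Function.comp]; exact hρK _ _ hzim
    have hd := (he.sub ho).norm
    rw [sub_self, norm_zero] at hd
    have hlow : ∀ m : ℕ, ‖w‖ ≤ ‖Kb (2 * m) z - Kb (2 * m + 1) z‖ := by
      intro m
      have hb1 : ∀ l, hb l 1 = 1 := by
        intro l
        simp only [hb]
        rw [hL.2.2.1, hg1]
        have : (4 : ℂ) ^ (L l) ≠ 0 := pow_ne_zero _ (by norm_num)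
        field_simp
      have hsame : hb (2 * m) = hb (2 * m + 1) := by
        funext j
        have h1 : 2 * m / 2 = m := by omega
        have h2 : (2 * m + 1) / 2 = m := by omega
        simp only [hb, L, n, h1, h2]
      have hs0 : σ (2 * m) = 1 := by simp [σ]
      have hs1 : σ (2 * m + 1) = -1 := by
        simp only [σ]
        rw [if_neg (by omega)]
      have hA : Kb (2 * m) z = kap 0 + Hf (hb (2 * m)) w := by
        simp only [Kb, Kf, ε, hs0, one_mul, hw]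
      have hA' : Kb (2 * m + 1) z = kap 0 + Hf (hb (2 * m)) (-w) := by
        simp only [Kb, Kf, ε, hs1, ← hsame, hw]
        congr 2
        ring
      have e1 := (hHB B 1 (hb (2 * m)) hB zero_le_one (hbb (2 * m))).2.2 w h8
      have e2 := (hHB B 1 (hb (2 * m)) hB zero_le_one (hbb (2 * m))).2.2 (-w) (by rwa [norm_neg])
      rw [hb1] at e1 e2
      rw [norm_neg] at e2
      have hBw : B * ‖w‖ = e0 / 2 := by rw [hwn]; field_simp
      have he01 : e0 ≤ 1 / 24 := by
        rw [he0]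
        apply one_div_le_one_div_of_le (by norm_num)
        linarith
      have hsm : 2 * 1 * (B * ‖w‖) ^ 2 ≤ ‖w‖ / 4 := by
        rw [hwn]
        have : B * (e0 / (2 * B)) = e0 / 2 := by field_simp
        rw [this]
        have h24 : B * e0 = 1 / 24 := by rw [he0]; field_simp
        have h5 : e0 / (2 * B) = 12 * e0 ^ 2 := by
          have : B ≠ 0 := hB0.ne'
          field_simp
          nlinarith [h24]
        rw [h5]
        nlinarith [sq_nonneg e0]
      rw [hA, hA']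
      have hdiff : kap 0 + Hf (hb (2 * m)) w - (kap 0 + Hf (hb (2 * m)) (-w)) =
          2 * w + ((Hf (hb (2 * m)) w - 1 * w) - (Hf (hb (2 * m)) (-w) - 1 * (-w))) := by ring
      rw [hdiff]
      have t1 : ‖(2 : ℂ) * w‖ = 2 * ‖w‖ := by rw [norm_mul]; norm_num
      have t2 := norm_sub_le (Hf (hb (2 * m)) w - 1 * w) (Hf (hb (2 * m)) (-w) - 1 * (-w))
      have t3 := norm_sub_le (2 * w + ((Hf (hb (2 * m)) w - 1 * w) - (Hf (hb (2 * m)) (-w) - 1 * (-w))))
        ((Hf (hb (2 * m)) w - 1 * w) - (Hf (hb (2 * m)) (-w) - 1 * (-w)))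
      rw [add_sub_cancel_right, t1] at t3
      have hwp : 0 ≤ ‖w‖ := norm_nonneg _
      linarith
    have hcontra := ge_of_tendsto' hd hlow
    have : 0 < ‖w‖ := by rw [hwn]; positivity
    linarith
  obtain ⟨ν₀, hν₀⟩ := hconv
  refine ⟨hTT, by rw [hn4]; norm_num, fun l => ν l 0, L, ν, ρ, ν₀, ?_, fun _ => rfl, ?_, ?_, hν₀,
    hnot⟩
  · -- L tends to infinity
    have h2 : Tendsto (fun l : ℕ => l / 2) atTop atTop := Nat.tendsto_div_const_atTop (by norm_num)
    exact tendsto_atTop_mono (fun l => Nat.le_succ (φ (l / 2))) (hφ.tendsto_atTop.comp h2)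
  · intro l i hi z hz
    have hp : L l - i = (L l - (i + 1)) + 1 := by omega
    have hK1 := (hprob l (L l - i) (Nat.sub_le _ _)).2
    have hK2 := (hprob l (L l - (i + 1)) (Nat.sub_le _ _)).2 z hz
    have hn1 := hnice l (L l - i) (Nat.sub_le _ _)
    have him : 0 < (z - Kv l (L l - i) z).im := by
      have := hn1.im_le z hz.le
      have h3 := hn1.pos
      rw [Complex.sub_im]
      linarith
    have hfe : Kv l (L l - (i + 1)) z = Kv l (L l - i) z + 3 * Kv l (L l - i) (z - Kv l (L l - i) z) := by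
      have := feq hF B hB (L l) (g (n l)) hL (hgb (n l)) (L l - (i + 1)) (by omega) (ε l) z
        (hw8 _ (hε l) z hz.le)
      rw [hp]
      exact this
    change Tendsto (fun d => Kd d TT (KK (mu (Kv l (L l - i)))) z) atTop
      (𝓝 (KK (mu (Kv l (L l - (i + 1)))) z))
    rw [hK2, hfe]
    apply tendsto_const_nhds.congr'
    filter_upwards [eventually_ge_atTop 2] with d hd
    obtain ⟨d', rfl⟩ := Nat.exists_eq_add_of_le' hd
    rw [hKd, hK1 z hz, hK1 _ him]
  · intro l z hz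
    rw [hρK l z hz]
    have hK1 := (hprob l (L l - 0) (Nat.sub_le _ _)).2 z hz
    change Kb l z = _ * KK (mu (Kv l (L l - 0))) z
    rw [hK1, hn4]
    simp only [Kb, Kv, Kf, hb, Nat.sub_zero]
    rw [Hf_smul, mul_add]
    push_cast
    rw [kap_zero]

end Pool.Agent.H288.TF
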