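import Pool.Agent.H288.TF.Defs

/-!
# Tree-free convolution powers: the statements of the proof, with paper proofs
-/

set_option autoImplicit false

open MeasureTheory Set Filter Topology

namespace Pool.Agent.H288.TF

/-! ## Part A: the coefficients -/

/-- **WT** (weights). `1 / MM i (a+b) = max (4^i) (a+b) ≤ max (4^i) a + max (4^i) b
= 1 / MM i a + 1 / MM i b`, hence `MM i a * MM i b ≤ MM i (a+b) * (MM i a + MM i b)` and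
`MM i a ≤ 1 / 4^i`. The other two are immediate. -/
def S_WT : Prop :=
  (∀ i a b : ℕ, 1 ≤ a → 1 ≤ b → MM i a * MM i b ≤ 2 / 4 ^ i * MM i (a + b)) ∧
  (∀ i j : ℕ, 0 < MM i j ∧ MM i j ≤ 1 / 4 ^ i ∧ MM (i + 1) j ≤ MM i j) ∧
  (∀ i j : ℕ, j ≤ 4 ^ i → MM i j = 1 / 4 ^ i) ∧ (∀ j : ℕ, 1 ≤ j → MM 0 j = 1 / j)

/-- **CP** (coefficients of powers). Induction on `p`: for `p = 1`, `cp h 1 n = h n` (`n ≥ 1`).
`‖cp h (p+1) n‖ ≤ ∑_a MM s a b_a (2/4^s)^(p-1) MM s (n-a) cp b p (n-a)` (the term `a = n` vanishes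
on both sides since `cp _ p 0 = 0` for `p ≥ 1`), and `MM s a MM s (n-a) ≤ 2/4^s MM s n` by WT. -/
def S_CP : Prop :=
  ∀ (s n : ℕ) (h : ℕ → ℂ) (b : ℕ → ℝ), (∀ a, 0 ≤ b a) →
    (∀ a, 1 ≤ a → a ≤ n → ‖h a‖ ≤ MM s a * b a) →
    ∀ p, 1 ≤ p → ‖cp h p n‖ ≤ (2 / 4 ^ s) ^ (p - 1) * MM s n * cp b p n

/-- **SUM2**. `‖qq s‖ ^ a = exp (-(4 log 3) y)`, `y = a / 4^s`. If `y ≤ 1/2` the term is
`≤ (2y)^p / p! ≤ 2y`; these `y` form a geometric progression with ratio `1/4` starting at most at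
`1/2`: sum `≤ 4/3`. If `y > 1/2`: `(2y)^p / p! ≤ exp (2y)`, the term is
`≤ exp (-(4 log 3 - 2) y) ≤ exp (-2.39 y)`; these `y` are `≥ 1/2, 2, 8, ...`: sum
`≤ 0.303 + 0.009 + ... ≤ 0.32`. (`log 3 ≥ 1.0986`; even `log 3 > 1` suffices:
`exp (-1) + exp (-4) + exp (-16) + ... ≤ 0.3679 + 0.0184 + 0.001 < 2/3`.) -/
def S_SUM2 : Prop :=
  ∀ a p L : ℕ, 1 ≤ a → 1 ≤ p →
    ∑ s ∈ Finset.Icc 1 L, (2 * (a : ℝ) / 4 ^ s) ^ p * ‖qq s‖ ^ a / (p.factorial : ℝ) ≤ 2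

/-- **NL** (from WT, CP, SUM2). `‖Nl‖ ≤ ∑_{a<j} ‖q_s‖^a MM s a b_a ∑_p (a^p/p!) (2/4^s)^(p-1)
MM s (j-a) cp b p (j-a)` and `MM s a MM s (j-a) ≤ 2/4^s MM s j`, so
`‖Nl‖ / MM s j ≤ ∑_{a<j} ∑_p [(2a/4^s)^p ‖q_s‖^a / p!] b_a cp b p (j-a)`. Sum over `s`
(SUM2) : `≤ 2 ∑_{p=1}^{j} ∑_{a<j} b_a cp b p (j-a) = 2 ∑_{p=1}^{j} cp b (p+1) j` and
`cp b (j+1) j = 0`. -/
def S_NL : Prop :=
  ∀ (L j : ℕ) (h : ℕ → ℕ → ℂ) (b : ℕ → ℝ), (∀ a, 0 ≤ b a) → 1 ≤ j →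
    (∀ s, 1 ≤ s → s ≤ L → ∀ a, 1 ≤ a → a < j → ‖h s a‖ ≤ MM s a * b a) →
    ∑ s ∈ Finset.Icc 1 L, ‖Nl (qq s) (h s) j‖ / MM s j ≤ Phi b j

/-- **WP** (upper bound of products). With `x = 4 j / 4^t`, `‖AA t j‖ ≤ 1 + 3 * 3^(-x)`. Compare
with `R_t = MM (t-1) j / MM t j`, whose product over `t ∈ (i, s]` is `MM i j / MM s j`.
If `x ≤ 1` then `R_t = 4 ≥ ‖AA t j‖`. If `x ≥ 4` (`j ≥ 4^t`) then `R_t = 1` and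
`‖AA t j‖ ≤ 1 + 3 * 3^(-x)`, with `x ≥ 4, 16, 64, ...` for the successive such `t`: product
`≤ exp (3/81 + 3/3^16 + ...) ≤ 1.05`. If `1 < x < 4` (at most one `t`), `R_t = 4/x` and
`‖AA t j‖ / R_t ≤ (x/4)(1 + 3 * 3^(-x)) ≤ 1.1` (crude: `x * 3^(1-x) ≤ 1` for `x ≥ 1`, so the
quotient is `≤ x/4 + 1/4 ≤ 5/4`). Total `≤ 1.05 * 5/4 < 2`. -/
def S_WP : Prop :=
  ∀ i s j : ℕ, i ≤ s → 1 ≤ j →
    ∏ t ∈ Finset.Ioc i s, ‖AA t j‖ ≤ 2 * (MM i j / MM s j)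

/-- **LOW** (lower bound of products off the resonances). `AA t j = A(x) = 1 + 3 exp (-θ x)`,
`x = 4j/4^t`; `|A(x)| ≥ |1 - 3^(1-x)|` and `|A(x)| ≥ 4 - 3|θ| x ≥ 4 - 10 x`
(`|1 - exp(-u)| ≤ |u|` for `Re u ≥ 0`, `|θ| ≤ 3.33`). Compare with `R_t = MM (t-1) j / MM t j ≤ 4`
(`= 1` if `x ≥ 4`). For `x ≥ 4`: quotient `≥ 1 - 3^(1-x)`, `x ≥ 4, 16, ...`, product `≥ 0.95`.
For `x ≤ 1/4`: quotient `≥ 1 - 2.5 x`, `x ≤ 1/4, 1/16, ...`: product `≥ 0.25`. For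
`1/4 < x < 4` (at most two `t`): quotient `≥ |1 - 3^(1-x)| / 4 ≥ c' > 0` because
`|x - 1| ≥ 1/4000`. So `c = 0.95 * 0.25 * c'^2` with `c' ≤ 1`. -/
def S_LOW : Prop :=
  ∃ c : ℝ, 0 < c ∧ ∀ L j : ℕ, 3 ≤ j →
    (∀ t, 1 ≤ t → t ≤ L → 1 / 4000 ≤ |4 * (j : ℝ) / 4 ^ t - 1|) →
    c * (MM 0 j / MM L j) ≤ ∏ t ∈ Finset.Icc 1 L, ‖AA t j‖

/-- **RES** (the resonant case). Let `m = t - 1`, so `|(e+1)/4^m - 1| < η = 1/4000`. As `e + 1` is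
odd and `≥ 3`, `m ≥ 1` and `1 ≤ |e+1-4^m| < η 4^m`, so `4^m > 4000`. Put `x_e = e/4^m`,
`x_j = (e+1)/4^m`: both within `2η` of `1`. `A(x) := 1 + 3 exp (-θ x)`, `AA t k = A(4k/4^t)`;
`A(1) = 0` and `|A(x)| = |1 - exp(-θ(x-1))| ≤ 3.4 |x-1|` for `|x-1| ≤ 2η`; `|A(x)| ≤ 1 + 3^(1-x)`,
`|A(x)| ≥ 1 - 3^(1-x)`, `|A(x)| ≥ 4 - 10x` (see LOW).
Main term `s = m+1`: `|q + e q^e| ≥ e 3^(-x_e) - 1 ≥ 0.33 e`; `|VV L s 1| ≥ 0.9 * 4^(-m-1)`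
(`x = 4/4^t` tiny); `|VV L s e| = 4^(-L) ∏_{t ≥ m+2} |A(x_e / 4^(t-m-1))| ≥ 4^(-m-1)
∏_{k≥1} (1 - 2.5 x_e/4^k) ≥ 0.25 * 4^(-m-1)`; `∏_{t ≤ m} |AA t (e+1)| ≥
∏_{k≥1} (1 - 3^(1 - 4^k x_j)) ≥ 0.9`. So main term `≥ 3*0.33*0.9*0.25*0.9/16 * e 4^(-2m)
≥ 0.0125 e 4^(-2m)`.
Terms `s ≥ m+2`: `|q + e q^e| ≤ 1+e`, `|VV L s 1|, |VV L s e| ≤ 4^(-s)` (all `|A| ≤ 4`),
`∏_{t<s} |AA t (e+1)| ≤ 1.1 * |A(x_j)| * 4^(s-m-2) ≤ 1.1 * 3.4 η 4^(s-m-2)`: sum over `s`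
`≤ 3(1+e) 1.1*3.4 η 4^(-m-2) ∑_{s≥m+2} 4^(-s) ≤ 0.07 (1+e) η 4^(-2m)`.
Terms `s ≤ m`: `|q_s + e q_s^e| ≤ 1 + e 3^(-4e/4^s)`, `|VV L s 1| ≤ 4^(-s)`, `|VV L s e| ≤
1.1 * |A(x_e)| 4^(-m-1) ≤ 1.1 * 3.4 * 2η 4^(-m-1)`, `∏_{t<s} |AA t (e+1)| ≤ 1.1`, and
`∑_{s≤m} 4^(-s) (1 + e 3^(-4e/4^s)) ≤ 1/3 + ∑_y y 3^(-4y) ≤ 0.4` (`y = x_e, 4x_e, ...`):
sum `≤ 3 * 1.21 * 6.8 η * 0.4 * 4^(-m-1) ≤ 2.5 η 4^(-m) ≤ 7e-4 * 4^(-m)`.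
Since `e 4^(-m) ≥ 0.999`, `|rr L e| ≥ (0.0125 - 0.0008 - 0.0001) e 4^(-2m) ≥ 0.011 / e`.
So `c = 1/100` works. -/
def S_RES : Prop :=
  ∃ c : ℝ, 0 < c ∧ ∀ L e : ℕ, 2 ≤ e → Even e →
    (∃ t, 1 ≤ t ∧ t ≤ L ∧ |4 * ((e : ℝ) + 1) / 4 ^ t - 1| < 1 / 4000) → c / e ≤ ‖rr L e‖

/-- **AFF**. `Nl q h (e+1) = ∑_{a=1}^{e} q^a h_a ∑_p (-ia)^p/p! cp h p (e+1-a)`. The coefficient
`h_e` occurs only for `a = e` (there `cp h 1 1 = h 1`, `cp h p 1 = 0` for `p ≥ 2`) and for `a = 1`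
(there `cp h 1 e = h e`, and `cp h p e` for `p ≥ 2` only involves `h_1, ..., h_{e-1}`); for
`2 ≤ a < e`, `cp h p (e+1-a)` only involves `h_1, ..., h_{e-1}`. -/
def S_AFF : Prop :=
  ∀ (q : ℂ) (h h' : ℕ → ℂ) (e : ℕ), 2 ≤ e → (∀ a, a ≠ e → h' a = h a) →
    Nl q h' (e + 1) = Nl q h (e + 1) - Complex.I * (q + e * q ^ e) * h 1 * (h' e - h e)

/-- **MAJ** (the majorant sequence). Take `b 0 = 0`, `b 1 = 1`, `b j = δ B^(j-1) / j^2` for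
`j ≥ 2`, `δ` small, then `B` large (depending on `C`, `δ`). Known:
`∑_{a+b=n, a,b ≥ 1} 1/(a^2 b^2) ≤ c₀ / n^2`, `c₀ = 14`. Write `u = t + v`, `v = ∑_{j≥2} b_j t^j`;
`cp b k j = [t^j] u^k = ∑_r binom(k,r) [t^(j-k+r)] v^r` and `[t^n] v^r ≤
δ^r B^(n-r) c₀^(r-1) / n^2`, `1/(j-k+r)^2 ≤ (k+1)^2/j^2`, so for `2 ≤ k ≤ j`, `B ≥ 1`, `δ c₀ ≤ 1`:
`cp b k j ≤ B^(j-k) 2^k (k+1)^2 / j^2 + [j=k]` (one may prefer the cruder direct induction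
`cp b k j ≤ D^k B^(j-k) / j^2`, with `D = D(δ)` a constant such as `2 + 2 c₀ + 4`: for
`k = 1` use `δ ≤ 1`; the step is the convolution inequality). Hence `Phi b j ≤ C₁ B^(j-2)/j^2`,
and the part `k ≥ 3` of `Phi b j` is `≤ C₁ B^(j-3)/j^2`, for `B ≥ 2D`.
(i) `C * Phi b j ≤ b j` for `j ≥ 2` if `B` is large compared with `C C₁/δ`.
(ii) Let `β = C Phi b e ≤ C C₁ B^(e-2)/e^2` and `b' = update b e β` (`0 ≤ b' ≤ b`). In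
`Phi b' (e+1)`, the part `k ≥ 3` is `≤ C₁ B^(e-2)/(e+1)^2`; the part `k = 2` is
`2 ∑_{a+c=e+1} b'_a b'_c = 4 β + 2 ∑_{a,c≥2} b_a b_c ≤ 4β + 2 δ² B^(e-1) c₀/(e+1)^2` (for
`e ≥ 2`; note `b'_1 = 1`). Compared with `b e = δ B^(e-1)/e^2`: the terms with `B^(e-2)` are
small for `B` large, and `C * 2 δ² c₀ ≤ δ/2` for `δ` small. -/
def S_MAJ : Prop :=
  ∀ C : ℝ, 1 ≤ C → ∃ (b : ℕ → ℝ) (B : ℝ), 1 ≤ B ∧ (∀ j, 0 ≤ b j) ∧ b 1 = 1 ∧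
    (∀ j, b j ≤ B ^ j) ∧ (∀ j, 2 ≤ j → C * Phi b j ≤ b j) ∧
    ∀ e, 2 ≤ e → C * Phi (Function.update b e (C * Phi b e)) (e + 1) + C * Phi b e ≤ b e

/-- **REP** (solution formula of the linear recursion `h_{t-1} = AA t j h_t + 3 N_t`), downward
induction on `i` from `L`. -/
def S_REP : Prop :=
  ∀ (L : ℕ) (g : ℕ → ℂ) (j i : ℕ), i ≤ L →
    hh L g i j = g j * VV L i j +
      ∑ s ∈ Finset.Ioc i L, 3 * Nl (qq s) (hh L g s) j * ∏ t ∈ Finset.Ioc i (s - 1), AA t j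

/-- **LOC** (the coefficients of index `≤ J` only depend on `g a`, `a ≤ J`), and the recursion
itself. Induction on the depth; `Nl q h j` only involves `h a`, `a < j`. -/
def S_LOC : Prop :=
  (∀ (L : ℕ) (g g' : ℕ → ℂ) (J : ℕ), (∀ a, a ≤ J → g a = g' a) →
    ∀ i j, j ≤ J → hh L g i j = hh L g' i j) ∧
  (∀ (L : ℕ) (g : ℕ → ℂ) (i j : ℕ), i < L →
    hh L g i j = AA (i + 1) j * hh L g (i + 1) j + 3 * Nl (qq (i + 1)) (hh L g (i + 1)) j) ∧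
  (∀ (L : ℕ) (g : ℕ → ℂ) (j : ℕ), hh L g L j = g j / 4 ^ L) ∧
  (∀ (q : ℂ) (h h' : ℕ → ℂ) (j : ℕ), (∀ a, 1 ≤ a → a < j → h a = h' a) →
    Nl q h j = Nl q h' j)

/-- **BASE**. Mode 1: `Nl _ _ 1 = 0`, so `hh L g i 1 = VV L i 1`, of norm `≤ 4^(-i)` because
`‖AA t 1‖ ≤ 4`, and `AA 1 1 = 0`. -/
def S_BASE : Prop :=
  ∀ L : ℕ, 1 ≤ L → ∀ b : ℕ → ℝ, b 1 = 1 → Good L b (fun j => if j = 1 then 1 else 0) 1

/-- **STEP** (from WT, NL, WP, LOW, RES, AFF, REP, LOC; it is stated as a consequence).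
Let `e = 2k`, `j = 2k+1`, `c ≤ 1` the smaller constant of LOW and RES, `C = 100 / c`.
Write `h` for the coefficients belonging to `g' = update (update g e x) j y`; modes `< e` are
those of `g` (LOC). By NL, WP (`∏_{Ioc i (s-1)} ≤ 2 MM i / MM (s-1) ≤ 2 MM i / MM s`) and REP the
part of mode `e` not coming from `x` satisfies `‖h⁰_{i,e}‖ ≤ 6 MM i e Phi b e`, and
`VV L i e` has norm `≤ 2 MM i e / (MM L e 4^L)`.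
Case A: `|4j/4^t - 1| ≥ 1/4000` for all `t ∈ [1, L]`. Take `x = 0`; then mode `e` is bounded by
`6 MM i e Phi b e ≤ MM i e b e`. Take `y = - (∑_s 3 N_s ∏_{t<s} AA t j) / VV L 0 j`, so that
`h_{0,j} = 0`; by LOW `‖VV L 0 j‖ ≥ c MM 0 j / (MM L j 4^L)`, so
`‖y‖ ≤ (6/c) MM L j 4^L Phi b j`, `‖y VV L i j‖ ≤ (12/c) MM i j Phi b j`, total
`≤ (18/c) MM i j Phi b j ≤ MM i j b j`.
Case B: `|4j/4^t - 1| < 1/4000` for some `t ∈ [1, L]`; then `e ≤ 4^L`, `MM L e 4^L = 1`. Take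
`y = 0`, and `h_{i,e} = h⁰_{i,e} + x VV L i e`. By AFF, with `h⁰` the coefficients for `x = 0`,
`N_{s,j}(h) = N_{s,j}(h⁰) - i (q_s + e q_s^e) VV L s 1 (x VV L s e)` (`h_{s,1} = VV L s 1`), so
`h_{0,j} = ∑_s 3 N_{s,j}(h⁰) ∏_{t<s} AA t j + x rr L e`. Take `x` so that it vanishes. The
coefficients `h⁰` are bounded by `MM s a b'_a`, `b' = update b e (C Phi b e)`, so by NL
`‖∑_s ...‖ ≤ 6 MM 0 j Phi b' j ≤ (6/e) Phi b' j`, and `‖x‖ ≤ (6/c) Phi b' j` by RES. Hence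
`‖h_{i,e}‖ ≤ MM i e (6 Phi b e + (12/c) Phi b' j) ≤ MM i e b e` and then mode `j` is bounded by
`6 MM i j Phi b j ≤ MM i j b j`. -/
def S_STEP : Prop :=
  ∃ C : ℝ, 1 ≤ C ∧ ∀ b : ℕ → ℝ, (∀ j, 0 ≤ b j) → b 1 = 1 →
    (∀ j, 2 ≤ j → C * Phi b j ≤ b j) →
    (∀ e, 2 ≤ e → C * Phi (Function.update b e (C * Phi b e)) (e + 1) + C * Phi b e ≤ b e) →
    ∀ L : ℕ, 1 ≤ L → ∀ k : ℕ, 1 ≤ k → ∀ g : ℕ → ℂ, Good L b g (2 * k - 1) →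
      ∃ x y : ℂ, Good L b (Function.update (Function.update g (2 * k) x) (2 * k + 1) y) (2 * k + 1)

/-- **CORE** (from MAJ, STEP, BASE, LOC). Take `b, B` from MAJ for the constant of STEP. Build
`g_0, g_1, ...`, `g_0` as in BASE, `g_k` from `g_{k-1}` by STEP; `g j := g_j j` agrees with `g_k`
up to index `2k+1`. `MM i j ≤ 4^(-i)`. -/
def S_CORE : Prop :=
  ∃ B : ℝ, 1 ≤ B ∧ ∀ L : ℕ, 1 ≤ L → ∃ g : ℕ → ℂ, g 1 = 1 ∧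
    (∀ i, i ≤ L → ∀ j, 1 ≤ j → ‖hh L g i j‖ ≤ B ^ j / 4 ^ i) ∧
    ∀ j, Odd j → hh L g 0 j = 0

/-! ## Part B: functions -/

/-- **FUNC**. For `a ≥ 1`, `exp (-i a H) = ∑_p (-ia)^p/p! H^p`, `H^p = ∑_n cp h p n w^n` (Cauchy
products), so `H (q w exp(-i H)) = ∑_a h_a q^a w^a ∑_p (-ia)^p/p! ∑_n cp h p n w^n`; the triple
sum converges absolutely since `∑_a B^a |w|^a exp (a S) < ∞`, `S = ∑_j (B|w|)^j ≤ 1/7`,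
`exp(1/7)/8 < 1`. Collect the coefficient of `w^j`: the terms with `p = 0` give `q^j h_j`, those
with `p ≥ 1` give `Nl q h j` (`cp h p n = 0` if `p > n`, and `cp h p 0 = 0` if `p ≥ 1`). -/
def S_FUNC : Prop :=
  ∀ (B : ℝ) (q : ℂ) (h h' : ℕ → ℂ), 1 ≤ B → ‖q‖ ≤ 1 → (∀ j, 1 ≤ j → ‖h j‖ ≤ B ^ j) →
    (∀ j, 1 ≤ j → h' j = (1 + 3 * q ^ j) * h j + 3 * Nl q h j) →
    ∀ w : ℂ, B * ‖w‖ ≤ 1 / 8 →
      Hf h' w = Hf h w + 3 * Hf h (q * w * Complex.exp (-Complex.I * Hf h w))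

/-- **HB** (elementary properties of power series; `∑_{j≥1} 8^(-j) = 1/7`). -/
def S_HB : Prop :=
  ∀ (B c : ℝ) (h : ℕ → ℂ), 1 ≤ B → 0 ≤ c → (∀ j, 1 ≤ j → ‖h j‖ ≤ c * B ^ j) →
    (∀ w : ℂ, B * ‖w‖ ≤ 1 / 8 → ‖Hf h w‖ ≤ c / 7) ∧
    DifferentiableOn ℂ (Hf h) (Metric.ball 0 (1 / (8 * B))) ∧
    (∀ w : ℂ, B * ‖w‖ ≤ 1 / 8 → ‖Hf h w - h 1 * w‖ ≤ 2 * c * (B * ‖w‖) ^ 2)

/-! ## Part C: measures -/

/-- **CAU** (Cauchy's formula for a half-plane). `F` continuous on the closed and holomorphic on the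
open upper half-plane, `‖F z‖ (1 + ‖z‖) ≤ M`. Then for `Im z > 0`:
`F z = (1/2πi) ∫ F(x)/(x - z) dx` and `0 = (1/2πi) ∫ F(x)/(x - conj z) dx`. Integrate over the
boundary of `[-T,T] × [0,T]` and let `T → ∞`
(Mathlib: `Complex.integral_boundary_rect_eq_zero_of_continuousOn_of_differentiableOn`; the three
other sides contribute `O(1/T)`). For the second one the integrand `F(ζ)/(ζ - conj z)` is
holomorphic. For the first one use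
`g(ζ) = (F ζ - F z * ((z + i)/(ζ + i))^2) / (ζ - z)` (removable singularity at `z`, e.g. `dslope`),
also `O(1/|ζ|^2)`, and `∫ dx / ((x + i)^2 (x - z)) = 2πi / (z + i)^2`, which follows from partial
fractions or from the conjugated second formula plus an explicit primitive; or use the version of
Cauchy's theorem with a countable exceptional set together with a small circle; any proof is
fine. -/
def S_CAU : Prop :=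
  ∀ (F : ℂ → ℂ) (M : ℝ), ContinuousOn F {z | 0 ≤ z.im} → DifferentiableOn ℂ F {z | 0 < z.im} →
    (∀ z : ℂ, 0 ≤ z.im → ‖F z‖ * (1 + ‖z‖) ≤ M) → ∀ z : ℂ, 0 < z.im →
    Integrable (fun x : ℝ => F x / ((x : ℂ) - z)) ∧
    ∫ x : ℝ, F x / ((x : ℂ) - z) = 2 * Real.pi * Complex.I * F z ∧
    ∫ x : ℝ, F x / ((x : ℂ) - (starRingEnd ℂ) z) = 0

/-- **MEAS** (from CAU). `F = z - K z` has `Im F ≥ Im z + c > 0`, `‖F z‖ ≥ max c (‖z‖ - R)`, so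
`1/F` satisfies the hypotheses of CAU. `dens K x = -(1/π) Im (1/F(x)) ≥ 0` is
`O(1/(1+x^2))`. Add the two formulas of CAU (the second one conjugated):
`2πi /F(z) = ∫ (1/F(x) - conj (1/F(x))) / (x - z) dx = 2i ∫ Im(1/F(x)) / (x - z) dx
= 2πi ∫ dens K x / (z - x) dx`. Total mass: multiply by `z = iy`, `y → ∞` (dominated
convergence; `iy / F(iy) → 1`). -/
def S_MEAS : Prop :=
  ∀ (K : ℂ → ℂ) (R c : ℝ), Nice K R c →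
    IsProbabilityMeasure (mu K) ∧ ∀ z : ℂ, 0 < z.im → KK (mu K) z = K z

/-- **WEAK**. `dens (Kn n) x → dens K x`, all bounded by `C / (1 + x^2)` with `C = C(R, c)`
(`‖x - K x‖ ≥ max c (|x| - R)`, `Im (x - K x) ≤ R`); dominated convergence gives
`∫ f d(mu (Kn n)) → ∫ f d(mu K)` for bounded continuous `f`. -/
def S_WEAK : Prop :=
  ∀ (Kn : ℕ → ℂ → ℂ) (K : ℂ → ℂ) (R c : ℝ), (∀ n, Nice (Kn n) R c) → Nice K R c →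
    (∀ x : ℝ, Tendsto (fun n => Kn n (x : ℂ)) atTop (𝓝 (K x))) →
    ∀ (ν : ℕ → ProbabilityMeasure ℝ) (ν₀ : ProbabilityMeasure ℝ),
      (∀ n, (ν n : Measure ℝ) = mu (Kn n)) → (ν₀ : Measure ℝ) = mu K → Tendsto ν atTop (𝓝 ν₀)

/-- **CONT**. `t ↦ (z - t)⁻¹` is bounded and continuous, so `G (ρ n) z → G ρ₀ z`; and
`G ρ₀ z ≠ 0` as its imaginary part is negative. -/
def S_CONT : Prop :=
  ∀ (ρ : ℕ → ProbabilityMeasure ℝ) (ρ₀ : ProbabilityMeasure ℝ), Tendsto ρ atTop (𝓝 ρ₀) →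
    ∀ z : ℂ, 0 < z.im →
      Tendsto (fun n => KK (ρ n : Measure ℝ) z) atTop (𝓝 (KK (ρ₀ : Measure ℝ) z))

/-- **TREE**. `branch TT 0 = {[]}`, `branch TT j = {[], [0]}` for `j = 1, 2, 3`. -/
def S_TREE : Prop :=
  IsTree TT ∧ nroot TT = 4 ∧
    ∀ (K : ℂ → ℂ) (z : ℂ) (d : ℕ), Kd (d + 2) TT K z = K z + 3 * K (z - K z)

/-- **SUB** (compactness: diagonal subsequence, e.g. sequential compactness of a countable product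
of closed discs; the second part is dominated convergence for series). -/
def S_SUB : Prop :=
  ∀ (B : ℝ) (a : ℕ → ℕ → ℂ), 1 ≤ B → (∀ L j, 1 ≤ j → ‖a L j‖ ≤ B ^ j) →
    ∃ (φ : ℕ → ℕ) (a' : ℕ → ℂ), StrictMono φ ∧ (∀ j, 1 ≤ j → ‖a' j‖ ≤ B ^ j) ∧
      (∀ j, 1 ≤ j → Tendsto (fun m => a (φ m) j) atTop (𝓝 (a' j))) ∧
      ∀ w : ℂ, B * ‖w‖ ≤ 1 / 8 → Tendsto (fun m => Hf (a (φ m)) w) atTop (𝓝 (Hf a' w))

/-- **NICE** (from HB). For `Im z > -1`, `‖ε exp(i z)‖ < ‖ε‖ e < 1/(8B)`; for `Im z ≥ 0`,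
`‖Hf h (ε exp (i z))‖ ≤ c/7`. -/
def S_NICE : Prop :=
  ∀ (B c : ℝ) (h : ℕ → ℂ) (κ ε : ℂ), 1 ≤ B → 0 < c → (∀ j, 1 ≤ j → ‖h j‖ ≤ c * B ^ j) →
    κ.im ≤ -(2 * c) → 24 * B * ‖ε‖ ≤ 1 →
    Nice (fun z => κ + Hf h (ε * Complex.exp (Complex.I * z))) (‖κ‖ + c) c

end Pool.Agent.H288.TF
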